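import Mathlib

/-!
# Monotone `G_δ` representatives of Lebesgue measurable sets

For an arbitrary set `M` of reals let `ψ M` be the set of the points `x` at which the upper
(symmetric) density of `M` is one. The map `ψ` is monotone, depends only on the class of `M`
modulo null sets, every `ψ M` is a `G_δ` set (an intersection of countably many open sets,
since `r ↦ λ* (M ∩ (x - r, x + r))` is, for fixed `r`, a lower semicontinuous function of `x`),
and for a Lebesgue measurable `M` the density theorem gives that `ψ M` and `M` agree up to a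
null set.
-/

open MeasureTheory Set Filter Topology

namespace Pool.Agent.Results.MP_2abcfb_lc.UpperDensityGdelta

/-- For a fixed radius the set of centres of balls with large outer measure of the trace of `M`
is open. -/
lemma isOpen_large (M : Set ℝ) (r : ℝ) (c : ENNReal) :
    IsOpen {x : ℝ | c < volume (M ∩ Metric.ball x r)} := by
  rw [Metric.isOpen_iff]
  intro x hx
  simp only [mem_ofPred_eq] at hx
  -- approximate from inside
  have hmeas : ∀ y s, volume (M ∩ Metric.ball y s) = (volume.restrict M) (Metric.ball y s) := by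
    intro y s
    rw [Measure.restrict_apply Metric.isOpen_ball.measurableSet, inter_comm]
  rw [hmeas] at hx
  have hU : Metric.ball x r = ⋃ n : ℕ, Metric.ball x (r - 1 / ((n : ℝ) + 1)) := by
    ext y
    simp only [Metric.mem_ball, mem_iUnion]
    constructor
    · intro hy
      obtain ⟨n, hn⟩ := exists_nat_one_div_lt (sub_pos.2 hy)
      exact ⟨n, by linarith⟩
    · rintro ⟨n, hn⟩
      have : (0 : ℝ) < 1 / ((n : ℝ) + 1) := by positivity
      linarith
  have hmono : Monotone fun n : ℕ => Metric.ball x (r - 1 / ((n : ℝ) + 1)) := by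
    intro m n hmn
    apply Metric.ball_subset_ball
    have : (1 : ℝ) / ((n : ℝ) + 1) ≤ 1 / ((m : ℝ) + 1) := by
      apply one_div_le_one_div_of_le (by positivity)
      have : (m : ℝ) ≤ n := by exact_mod_cast hmn
      linarith
    linarith
  have hlim := tendsto_measure_iUnion_atTop (μ := volume.restrict M) hmono
  rw [← hU] at hlim
  obtain ⟨n, hn⟩ := (hlim.eventually (lt_mem_nhds hx)).exists
  refine ⟨1 / ((n : ℝ) + 1), by positivity, ?_⟩
  intro y hy
  simp only [mem_ofPred_eq]
  rw [hmeas]
  refine lt_of_lt_of_le hn (measure_mono ?_)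
  intro z hz
  rw [Metric.mem_ball] at hz hy ⊢
  have := dist_triangle z x y
  rw [dist_comm x y] at this
  linarith

/-- The points where the upper symmetric density of `M` is one. -/
def psi (M : Set ℝ) : Set ℝ :=
  {x | ∀ n : ℕ, ∃ r : ℝ, 0 < r ∧ r < 1 / ((n : ℝ) + 1) ∧
    ENNReal.ofReal ((1 - 1 / ((n : ℝ) + 1)) * (2 * r)) < volume (M ∩ Metric.ball x r)}

lemma isGδ_psi (M : Set ℝ) : IsGδ (psi M) := by
  have : psi M = ⋂ n : ℕ, ⋃ r : {r : ℝ // 0 < r ∧ r < 1 / ((n : ℝ) + 1)},
      {x | ENNReal.ofReal ((1 - 1 / ((n : ℝ) + 1)) * (2 * r.1)) < volume (M ∩ Metric.ball x r.1)} := by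
    ext x
    simp only [psi, mem_ofPred_eq, mem_iInter, mem_iUnion]
    refine forall_congr' fun n => ⟨?_, ?_⟩
    · rintro ⟨r, h1, h2, h3⟩
      exact ⟨⟨r, h1, h2⟩, h3⟩
    · rintro ⟨⟨r, h1, h2⟩, h3⟩
      exact ⟨r, h1, h2, h3⟩
  rw [this]
  exact IsGδ.iInter_of_isOpen fun n => isOpen_iUnion fun r => isOpen_large M _ _

lemma psi_mono_ae {M M' : Set ℝ} (h : volume (M \ M') = 0) : psi M ⊆ psi M' := by
  intro x hx n
  obtain ⟨r, h1, h2, h3⟩ := hx n
  refine ⟨r, h1, h2, lt_of_lt_of_le h3 ?_⟩
  calc volume (M ∩ Metric.ball x r)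
      ≤ volume ((M' ∩ Metric.ball x r) ∪ (M \ M')) := by
        apply measure_mono
        intro y hy
        by_cases hy' : y ∈ M'
        · exact Or.inl ⟨hy', hy.2⟩
        · exact Or.inr ⟨hy.1, hy'⟩
    _ ≤ volume (M' ∩ Metric.ball x r) + volume (M \ M') := measure_union_le _ _
    _ = volume (M' ∩ Metric.ball x r) := by rw [h, add_zero]

/-- The measure of the trace on the open ball and on the closed ball agree. -/
lemma vol_closed (M : Set ℝ) (x r : ℝ) :
    volume (M ∩ Metric.closedBall x r) ≤ volume (M ∩ Metric.ball x r) := by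
  calc volume (M ∩ Metric.closedBall x r)
      ≤ volume ((M ∩ Metric.ball x r) ∪ {x - r, x + r}) := by
        apply measure_mono
        rintro y ⟨hy1, hy2⟩
        rw [Real.closedBall_eq_Icc, mem_Icc] at hy2
        by_cases h : y ∈ Metric.ball x r
        · exact Or.inl ⟨hy1, h⟩
        · rw [Real.ball_eq_Ioo, mem_Ioo, not_and_or] at h
          right
          simp only [mem_insert_iff, mem_singleton_iff]
          rcases h with h | h
          · left; push Not at h; linarith
          · right; push Not at h; linarith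
    _ ≤ volume (M ∩ Metric.ball x r) + volume ({x - r, x + r} : Set ℝ) := measure_union_le _ _
    _ = volume (M ∩ Metric.ball x r) := by
        rw [(Set.toFinite ({x - r, x + r} : Set ℝ)).measure_zero volume, add_zero]

lemma psi_ae {M : Set ℝ} (hM : MeasurableSet M) : volume (symmDiff M (psi M)) = 0 := by
  have hd := Besicovitch.ae_tendsto_measure_inter_div_of_measurableSet (volume : Measure ℝ) hM
  have key : ∀ᵐ x : ℝ, x ∉ symmDiff M (psi M) := by
    filter_upwards [hd] with x hx
    have hvol : ∀ r : ℝ, volume (Metric.closedBall x r) = ENNReal.ofReal (2 * r) :=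
      fun r => Real.volume_closedBall x r
    intro hmem
    rcases hmem with ⟨h1, h2⟩ | ⟨h1, h2⟩
    · -- density one
      apply h2
      intro n
      rw [indicator_of_mem h1] at hx
      have hlt : ENNReal.ofReal (1 - 1 / ((n : ℝ) + 1)) < (1 : ℝ → ENNReal) x := by
        have h0 : (0 : ℝ) < 1 / ((n : ℝ) + 1) := by positivity
        simp only [Pi.one_apply]
        rw [ENNReal.ofReal_lt_one]
        linarith
      have hev := hx.eventually (lt_mem_nhds hlt)
      have hev2 : ∀ᶠ r : ℝ in 𝓝[>] 0, r ∈ Ioo (0 : ℝ) (1 / ((n : ℝ) + 1)) :=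
        Ioo_mem_nhdsGT (by positivity)
      obtain ⟨r, hr1, hr2⟩ := (hev.and hev2).exists
      refine ⟨r, hr2.1, hr2.2, lt_of_lt_of_le ?_ (vol_closed M x r)⟩
      have hpos : ENNReal.ofReal (2 * r) ≠ 0 := by
        rw [Ne, ENNReal.ofReal_eq_zero]
        have := hr2.1
        linarith
      rw [hvol r, ENNReal.lt_div_iff_mul_lt (Or.inl hpos) (Or.inl ENNReal.ofReal_ne_top)] at hr1
      rw [ENNReal.ofReal_mul']
      · exact hr1
      · have := hr2.1
        linarith
    · -- density zero
      rw [indicator_of_notMem h2] at hx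
      have hlt : (0 : ENNReal) < ENNReal.ofReal (1 / 2) := by
        rw [ENNReal.ofReal_pos]; norm_num
      have hev := hx.eventually (gt_mem_nhds hlt)
      rw [Filter.Eventually, mem_nhdsGT_iff_exists_Ioo_subset] at hev
      obtain ⟨u, hu, hsub⟩ := hev
      obtain ⟨n, hn⟩ := exists_nat_one_div_lt (lt_min (show (0 : ℝ) < u from hu)
        (show (0 : ℝ) < 1 / 2 by norm_num))
      obtain ⟨r, hr1, hr2, hr3⟩ := h1 n
      have hr : r ∈ Ioo (0 : ℝ) u := ⟨hr1, lt_trans hr2 (lt_of_lt_of_le hn (min_le_left _ _))⟩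
      have h4 := hsub hr
      simp only [mem_ofPred_eq] at h4
      have hpos : ENNReal.ofReal (2 * r) ≠ 0 := by
        rw [Ne, ENNReal.ofReal_eq_zero]
        linarith
      rw [hvol r, ENNReal.div_lt_iff (Or.inl hpos) (Or.inl ENNReal.ofReal_ne_top)] at h4
      have h5 : volume (M ∩ Metric.ball x r) ≤ volume (M ∩ Metric.closedBall x r) :=
        measure_mono (inter_subset_inter_right _ Metric.ball_subset_closedBall)
      have h6 := lt_of_lt_of_le hr3 (h5.trans h4.le)
      rw [← ENNReal.ofReal_mul (by norm_num : (0 : ℝ) ≤ 1 / 2)] at h6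
      have h7 : ENNReal.ofReal (1 / 2 * (2 * r)) ≤
          ENNReal.ofReal ((1 - 1 / ((n : ℝ) + 1)) * (2 * r)) := by
        apply ENNReal.ofReal_le_ofReal
        have : 1 / ((n : ℝ) + 1) < 1 / 2 := lt_of_lt_of_le hn (min_le_right _ _)
        nlinarith
      exact absurd h6 (not_lt.2 h7)
  exact measure_eq_zero_iff_ae_notMem.2 key

/-- There is a map `ψ` from the subsets of the real line to the `G_δ` sets which is monotone, even
modulo null sets (if `M \ M'` is null then `ψ M ⊆ ψ M'`), whose value `ψ M` depends only on the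
class of `M` modulo null sets, and such that `M` and `ψ M` agree up to a null set for every
Lebesgue measurable set `M`. -/
theorem result :
    ∃ ψ : Set ℝ → Set ℝ,
      (∀ M, IsGδ (ψ M)) ∧
      (∀ M M', M ⊆ M' → ψ M ⊆ ψ M') ∧
      (∀ M M', volume (M \ M') = 0 → ψ M ⊆ ψ M') ∧
      (∀ M M', volume (symmDiff M M') = 0 → ψ M = ψ M') ∧
      (∀ M, NullMeasurableSet M volume → volume (symmDiff M (ψ M)) = 0) := by
  refine ⟨psi, isGδ_psi, ?_, fun M M' h => psi_mono_ae h, ?_, ?_⟩
  · intro M M' h
    apply psi_mono_ae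
    rw [sdiff_eq_empty.2 h]
    simp
  · intro M M' h
    apply Subset.antisymm
    · exact psi_mono_ae (measure_mono_null (fun x hx => Or.inl hx) h)
    · exact psi_mono_ae (measure_mono_null (fun x hx => Or.inr hx) h)
  · intro M hM
    obtain ⟨N, hN, hMN⟩ := hM
    have h0 : volume (symmDiff M N) = 0 := measure_symmDiff_eq_zero_iff.2 hMN
    have h1 : psi M = psi N := by
      apply Subset.antisymm
      · exact psi_mono_ae (measure_mono_null (fun x hx => Or.inl hx) h0)
      · exact psi_mono_ae (measure_mono_null (fun x hx => Or.inr hx) h0)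
    rw [h1]
    refine measure_mono_null (symmDiff_triangle M N (psi N)) ?_
    exact measure_union_null h0 (psi_ae hN)

end Pool.Agent.Results.MP_2abcfb_lc.UpperDensityGdelta
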